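import Pool.Agent.P.MP_d1514d_gt.Defs

set_option autoImplicit false

/-! Covers that contain each finite set in one member, inside a structure `(M, mem)`. -/

open Pool.Agent.Lib.PosetForcing

namespace Pool.Agent.P.MP_d1514d_gt

universe v

variable {M : Type v} (mem : M → M → Prop) (C : Ctx M)

/-- `F` is an open `ω`-cover of the space `(S, T)`: its members are open, `S` is not a member, and
each finite subset of `S` lies in a member -/
def IsOmCover (S T F : M) : Prop :=
  IsSub mem F T ∧ ¬ mem S F ∧
    ∀ A, IsFin mem C A → IsSub mem A S → ∃ V, mem V F ∧ IsSub mem A V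

/-- for each sequence `f` of open `ω`-covers of `(S, T)` there are finite sets `g(n) ⊆ f(n)` whose
union `H` is an `ω`-cover -/
def OmMenger (S T : M) : Prop :=
  ∀ f, IsFunOn mem f C.w (IsOmCover mem C S T) → ∃ g, IsChoice mem C f g ∧
    ∃ H, (∀ V, mem V H ↔ ∃ n G, App mem g n G ∧ mem V G) ∧ IsOmCover mem C S T H

end Pool.Agent.P.MP_d1514d_gt
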