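import Pool.Agent.P.MP_d1514d_gt.Om.Round

set_option autoImplicit false
set_option synthInstance.maxSize 100000

/-! The product of the generic set `X` with a space whose finite powers are Menger. -/

open Set Filter Pool.Agent.Lib.PosetForcing

namespace Pool.Agent.P.MP_d1514d_gt

theorem sigma_exact (p : ℕ → PP) (h : ∀ n, p (n + 1) ≤ p n) :
    ∃ q, (∀ i, q ≤ p i) ∧ ∀ t ∈ q.D, ∃ i, t ∈ (p i).D := by
  obtain ⟨q, hq⟩ := sigma p h
  have hD : (⋃ i, (p i).D) ⊆ q.D := iUnion_subset fun i => (hq i).1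
  refine ⟨⟨⋃ i, (p i).D, q.Pr, q.cD.mono hD, q.cP, fun t ht => q.lt t (hD ht),
    fun t ht => q.sub t (hD ht), fun t ht => q.inf t (hD ht),
    fun t ht t' ht' => q.ad t (hD ht) t' (hD ht'), fun E hE => q.room E (hE.trans hD),
    fun π hπ E hE => q.keeps π hπ E (hE.trans hD)⟩, fun i => ⟨subset_iUnion (fun i => (p i).D) i,
      (hq i).2.1, fun t ht t' ht' => (hq i).2.2 t ht t' (hD ht')⟩, fun t ht => mem_iUnion.1 ht⟩

theorem isChoice_selN2 {ι : Type} {N : ℕ → Finset ι} {V : ℕ → ι → Name PP} {p : PP}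
    {S T f : Name PP} (hf : Forces p fun U => IsFunOn Mod.mem (f.val U) (CC.val U).w
      (IsOmCover Mod.mem (CC.val U) (S.val U) (T.val U)))
    (h : ∀ n, ∀ i ∈ N n, Forces p fun U => InCov (f.val U) n ((V n i).val U)) :
    Forces p fun U => IsChoice Mod.mem (CC.val U) (f.val U) ((selN N V).val U) := by
  refine Forces.and (forces_isFunOn_seq (V := fun U => IsFin Mod.mem (CC.val U)) fun n =>
    Forces.of_forall (isFin_fam _) p) ?_
  have : Forces p fun U => ∀ n G, App Mod.mem ((selN N V).val U) n G →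
      ∀ F, App Mod.mem (f.val U) n F → IsSub Mod.mem G F := by
    refine forces_forall_app_graph fun n q hq _ => ⟨q, le_rfl, fun U hU F hF x hx => ?_⟩
    obtain ⟨i, hi, rfl⟩ := (mem_fam_finset (N n) (V n) U _).1 hx
    obtain ⟨F', h1, h2⟩ := (h n i hi).mono hq U hU
    exact (hf.mono hq U hU).2.2 _ _ _ h1 hF ▸ h2
  exact this.imp fun U h n F G h1 h2 => h n G h2 F h1

theorem all_rounds {Z τ S T f : Name PP} {p : PP} (H : Hyp p Z τ S T f) :
    ∃ r ≤ p, ∃ (N : ℕ → Finset (ℕ × Bool × ℕ × ℕ × ℕ))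
      (V : ℕ → ℕ × Bool × ℕ × ℕ × ℕ → Name PP),
      (∀ a, ∀ j ∈ N a, Forces r fun U => InCov (f.val U) a ((V a j).val U)) ∧
      ∀ r' ≤ r, ∀ xs : Finset (Set ℕ), (∀ x ∈ xs, ρX r' x) → ∀ l, Cov r' l Z →
        ∃ s ≤ r', ∃ a, ∃ j ∈ N a, ∀ x ∈ xs, ∀ z ∈ l,
          Forces s fun U => App Mod.mem ((V a j).val U) ((ptN x).val U) (z.val U) := by
  classical
  choose R hR N V h1 h2 using fun q : {q : PP // q ≤ p} => round (H.mono q.2)
  let P : ℕ → {q : PP // q ≤ p} := fun i => Nat.rec ⟨p, le_rfl⟩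
    (fun _ q => ⟨R q, (hR q).trans q.2⟩) i
  have hP : ∀ i, (P (i + 1)).1 = R (P i) := fun _ => rfl
  have hdec : ∀ i, (P (i + 1)).1 ≤ (P i).1 := fun i => hR (P i)
  have hanti : Antitone fun i => (P i).1 := antitone_nat_of_succ_le hdec
  obtain ⟨q, hq, hq'⟩ := sigma_exact (fun i => (P i).1) hdec
  refine ⟨q, hq 0, fun a => (Finset.range (a + 1)).biUnion fun i =>
    (N (P i) a).image (Prod.mk i), fun a j => V (P j.1) a j.2, fun a j hj => ?_,
    fun r' hr' xs hxs l hl => ?_⟩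
  · obtain ⟨i, -, hj⟩ := Finset.mem_biUnion.1 hj
    obtain ⟨k, hk, rfl⟩ := Finset.mem_image.1 hj
    exact (h1 (P i) a k hk).mono (hq (i + 1))
  · have hev : ∀ᶠ i in atTop, ∀ x ∈ xs, ρX (P i).1 x ∨ Late r' (R (P i)) x := by
      refine (eventually_all_finset xs).2 fun x hx => ?_
      rcases hxs x hx with h | ⟨t, ht, rfl⟩
      · exact Eventually.of_forall fun i => Or.inl (Or.inl h)
      · by_cases h : t ∈ q.D
        · obtain ⟨i, hi⟩ := hq' t h
          exact (eventually_ge_atTop i).mono fun k hk => Or.inl (Or.inr ⟨t, (hanti hk).1 hi, rfl⟩)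
        · exact Eventually.of_forall fun i => Or.inr
            ⟨t, ht, fun h' => h ((hq (i + 1)).1 h'), fun _ hm => hm.1⟩
    obtain ⟨i, hi⟩ := hev.exists
    obtain ⟨s, hs, a, ha, j, hj, g⟩ := h2 (P i) r' (hr'.trans (hq (i + 1))) xs
      (fun x hx => ⟨hxs x hx, hi x hx⟩) l hl i
    exact ⟨s, hs, a, (i, j), Finset.mem_biUnion.2 ⟨i, Finset.mem_range.2 (Nat.lt_succ_of_le ha),
      Finset.mem_image.2 ⟨j, hj, rfl⟩⟩, g⟩

theorem productive_om (U : Gen PP) (Z τ S T : Mod U) (h1 : IsTopOn Mod.mem Z τ)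
    (h4 : OmMenger Mod.mem (CC.val U) Z τ)
    (h2 : IsProd Mod.mem ((setN ρX).val U) ((topN (setN ρX)).val U) Z τ S T) :
    OmMenger Mod.mem (CC.val U) S T := by
  classical
  intro f h3
  obtain ⟨Z, rfl⟩ := Z.exists_name
  obtain ⟨τ, rfl⟩ := τ.exists_name
  obtain ⟨S, rfl⟩ := S.exists_name
  obtain ⟨T, rfl⟩ := T.exists_name
  obtain ⟨f, rfl⟩ := f.exists_name
  have h := And.intro h1 (And.intro h2 (And.intro h3 h4))
  clear h1 h2 h3 h4
  revert U
  refine by_forcing fun p hp => ?_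
  have H : Hyp p Z τ S T f := ⟨hp.imp fun _ h => h.1, hp.imp fun _ h => h.2.1,
    hp.imp fun _ h => h.2.2.1, hp.imp fun _ h => h.2.2.2⟩
  clear hp
  obtain ⟨r, hr, N, V, g1, g2⟩ := all_rounds H
  have hch := isChoice_selN2 (N := N) (V := V) (H.cov.mono hr) g1
  have key : Forces r fun U => ∀ A, IsFin Mod.mem (CC.val U) A → IsSub Mod.mem A (S.val U) →
      ∃ W, (∃ n G, App Mod.mem ((selN N V).val U) n G ∧ Mod.mem W G) ∧ IsSub Mod.mem A W := by
    refine forces_forall fun A => forces_imp fun r1 hr1 k1 => ⟨r1, le_rfl,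
      forces_imp fun r2 hr2 k2 => ?_⟩
    obtain ⟨r3, hr3, s, w, k3⟩ := fin_cover (C := CC) (k1.mono hr2)
    have h3r : r3 ≤ r := hr3.trans (hr2.trans hr1)
    obtain ⟨r4, hr4, k4⟩ := hσ.exists_forall r3 (fun (i : s) r => ∃ (x : Set ℕ) (z : Name PP),
      ρX r x ∧ Forces r fun U => IsPair Mod.mem ((w i).val U) ((ptN x).val U) (z.val U) ∧
        Mod.mem (z.val U) (Z.val U))
      (fun _ _ _ h ⟨x, z, h1, h2⟩ => ⟨x, z, monX _ _ _ h h1, h2.mono h⟩) fun i t ht => by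
        have c0 : Forces t fun U => ∃ x y, IsPair Mod.mem ((w i).val U) x y ∧
            Mod.mem x ((setN ρX).val U) ∧ Mod.mem y (Z.val U) := fun U hU =>
          ((H.prod.mono (ht.trans (h3r.trans hr)) U hU).1 _).1 (k2.mono (ht.trans hr3) U hU _
            ((k3.mono ht U hU _).2 ⟨i, i.2, rfl⟩))
        obtain ⟨x, c1⟩ := c0.exists_name
        obtain ⟨z, c2⟩ := c1.exists_name
        obtain ⟨t', ht', x', c3, c4⟩ := exists_pt monX (c2.imp fun _ h => h.2.1)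
        refine ⟨t', ht', x', z, c3, fun U hU => ?_⟩
        have c5 := c2.mono ht' U hU
        beta_reduce
        rw [← c4 U hU]
        exact ⟨c5.1, c5.2.2⟩
    choose x z k5 k6 using k4
    obtain ⟨r5, hr5, a, j, hj, k7⟩ := g2 r4 (hr4.trans h3r) (Finset.univ.image x)
      (fun y hy => by obtain ⟨i, -, rfl⟩ := Finset.mem_image.1 hy; exact k5 i)
      (Finset.univ.toList.map z) (fun y hy => by
        obtain ⟨i, -, rfl⟩ := List.mem_map.1 hy
        exact (k6 i).imp fun _ h => h.2)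
    refine ⟨r5, hr5.trans (hr4.trans hr3), fun U hU => ⟨(V a j).val U, ⟨_, _, app_seq.2 rfl,
      (mem_fam_finset (N a) (V a) U _).2 ⟨j, hj, rfl⟩⟩, fun y hy => ?_⟩⟩
    obtain ⟨i, hi, rfl⟩ := (k3.mono (hr5.trans hr4) U hU y).1 hy
    obtain ⟨w', c5, c6⟩ := k7 _ (Finset.mem_image_of_mem x (Finset.mem_univ ⟨i, hi⟩)) _
      (List.mem_map.2 ⟨⟨i, hi⟩, Finset.mem_toList.2 (Finset.mem_univ _), rfl⟩) U hU
    exact (isZFC U).pair_unique c6 ((k6 ⟨i, hi⟩).mono hr5 U hU).1 ▸ c5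
  refine ⟨r, hr, fun U hU => ⟨_, hch U hU, ?_⟩⟩
  have hin : ∀ W, (∃ n G, App Mod.mem ((selN N V).val U) n G ∧ Mod.mem W G) →
      ∃ F, IsOmCover Mod.mem (CC.val U) (S.val U) (T.val U) F ∧ Mod.mem W F := by
    rintro W ⟨n, G, c1, c2⟩
    obtain ⟨F, hF⟩ := (H.cov.mono hr U hU).2.1 _ ((isZFC U).app_val (hch U hU).1 c1).1
    exact ⟨F, ((isZFC U).app_val (H.cov.mono hr U hU) hF).2, (hch U hU).2 _ _ _ hF c1 _ c2⟩
  obtain ⟨B, hB⟩ := Mod.sep (fun U W => ∃ n G, App Mod.mem ((selN N V).val U) n G ∧ Mod.mem W G)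
    U (T.val U)
  refine ⟨B, fun W => ⟨fun h => ((hB W).1 h).2, fun h => (hB W).2 ⟨?_, h⟩⟩,
    fun W h => ((hB W).1 h).1, fun h => ?_, fun A c1 c2 => ?_⟩
  · obtain ⟨F, c1, c2⟩ := hin W h
    exact c1.1 W c2
  · obtain ⟨F, c1, c2⟩ := hin _ ((hB _).1 h).2
    exact c1.2.1 c2
  · obtain ⟨W, c3, c4⟩ := key U hU A c1 c2
    obtain ⟨F, c5, c6⟩ := hin W c3
    exact ⟨W, (hB W).2 ⟨c5.1 W c6, c3⟩, c4⟩

end Pool.Agent.P.MP_d1514d_gt
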