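import Pool.Agent.P.MP_d1514d_gt.Om.Step

set_option autoImplicit false
set_option synthInstance.maxSize 100000

/-! One round: all later points and all earlier points are covered at once. -/

open Set Filter Pool.Agent.Lib.PosetForcing

namespace Pool.Agent.P.MP_d1514d_gt

variable {Z τ S T f : Name PP}

/-- `x` has no element from `u` on below `v` -/
def Gap (x : Set ℕ) (u v : ℕ) : Prop := ∀ m ∈ x, u ≤ m → v ≤ m

/-- `x` is part of a point of `r'` that is not a point of `r` -/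
def Late (r' r : PP) (x : Set ℕ) : Prop := ∃ t ∈ r'.D, t ∉ r.D ∧ x ⊆ t.y

/-- the subsets of `{0, …, u - 1}` -/
noncomputable def lowSets (u : ℕ) : Finset (Set ℕ) :=
  open Classical in (Finset.range u).powerset.image fun s : Finset ℕ => (s : Set ℕ)

theorem lowSets_fin {u : ℕ} {x : Set ℕ} (h : x ∈ lowSets u) : x.Finite := by
  classical
  obtain ⟨s, -, rfl⟩ := Finset.mem_image.1 h
  exact s.finite_toSet

theorem Gap.exists_low {x : Set ℕ} {u v : ℕ} (h : Gap x u v) :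
    ∃ x' ∈ lowSets u, Agree v x' x := by
  classical
  refine ⟨(((Finset.range u).filter (· ∈ x) : Finset ℕ) : Set ℕ), Finset.mem_image.2
    ⟨_, Finset.mem_powerset.2 (Finset.filter_subset _ _), rfl⟩, fun m hm => ?_⟩
  simp only [Finset.coe_filter, Finset.mem_range, mem_ofPred_eq]
  exact ⟨fun h => h.2, fun h' => ⟨not_le.1 fun h'' => absurd (h m h' h'') (not_le.2 hm), h'⟩⟩

theorem late_gap {r2 r3 r' : PP} (h3 : r3 ≤ r2) (h' : r' ≤ r3) {t1 : Pt} (ht1 : t1 ∈ r2.D)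
    {b K : ℕ → ℕ} (hb : ∀ a, a ≤ b a) (hK : ∀ m, ∑ i ∈ Finset.range (m + 1), K i ≤ t1.g m)
    {x x' : Set ℕ} (hx : Late r3 r2 x) (hx' : Late r' r3 x') :
    ∀ᶠ a in atTop, ¬ Gap x a (b a) → Gap x' (b a) (K a) := by
  obtain ⟨t, ht, htn, hxt⟩ := hx
  obtain ⟨w, hw, hwn, hxw⟩ := hx'
  obtain ⟨d, hd⟩ := (h'.2.2 t ht w hw hwn).1.bddAbove
  obtain ⟨c, hc⟩ := eventually_atTop.1 (h3.2.2 t1 ht1 t ht htn).2
  filter_upwards [eventually_gt_atTop d, eventually_ge_atTop c] with n n1 n2 hn m hm h4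
  simp only [Gap, not_forall, not_le] at hn
  obtain ⟨k, k1, k2, k3⟩ := hn
  by_contra h5
  have h6 : K n ≤ t.g k := by
    refine le_trans ?_ ((hK k).trans (hc k (n2.trans k2)))
    exact Finset.single_le_sum (fun _ _ => Nat.zero_le _) (Finset.mem_range.2 (by omega))
  have h7 : m ≤ d := hd ⟨hxw hm, k, hxt k1, k3.le.trans h4, (not_le.1 h5).trans_le h6⟩
  have := (hb n).trans h4
  omega

theorem box_app {r : PP} {x x' : Set ℕ} {k : ℕ} {O V z : Name PP} (hx : ρX r x)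
    (ha : Agree k x' x) (hb : Forces r fun U => Box x' k (O.val U) (V.val U))
    (hz : Forces r fun U => Mod.mem (z.val U) (O.val U)) :
    Forces r fun U => App Mod.mem (V.val U) ((ptN x).val U) (z.val U) := fun U hU =>
  hb U hU _ _ (forces_mem_setN (ρ := fun q y => ρX q y ∧ Agree k x' y) ⟨hx, ha⟩ U hU) (hz U hU)

theorem round {p : PP} (H : Hyp p Z τ S T f) :
    ∃ r ≤ p, ∃ (N : ℕ → Finset (Bool × ℕ × ℕ × ℕ)) (V : ℕ → Bool × ℕ × ℕ × ℕ → Name PP),
      (∀ a, ∀ j ∈ N a, Forces r fun U => InCov (f.val U) a ((V a j).val U)) ∧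
      ∀ r' ≤ r, ∀ xs : Finset (Set ℕ), (∀ x ∈ xs, ρX r' x ∧ (ρX p x ∨ Late r' r x)) →
        ∀ l, Cov r' l Z → ∀ c, ∃ s ≤ r', ∃ a, c ≤ a ∧ ∃ j ∈ N a, ∀ x ∈ xs, ∀ z ∈ l,
          Forces s fun U => App Mod.mem ((V a j).val U) ((ptN x).val U) (z.val U) := by
  classical
  obtain ⟨E, e1, e2, e3⟩ := exists_exhaust (p.cD.image fun t => t.y \ t.e)
  have hL : ∀ u a, ∀ x ∈ lowSets u ∪ (e2 a).toFinset, ρX p x := by
    intro u a x hx
    rcases Finset.mem_union.1 hx with h | h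
    · exact Or.inl (lowSets_fin h)
    · obtain ⟨t, ht, rfl⟩ := e1 a ((e2 a).mem_toFinset.1 h)
      exact Or.inr ⟨t, ht, rfl⟩
  have hold : ∀ x, ρX p x → ∀ᶠ a in atTop, ∀ u v, a ≤ u →
      ∃ x' ∈ lowSets u ∪ (e2 a).toFinset, Agree v x' x := by
    rintro x (h | ⟨t, ht, rfl⟩)
    · obtain ⟨d, hd⟩ := h.bddAbove
      filter_upwards [eventually_gt_atTop d] with a ha u v hu
      obtain ⟨x', h1, h2⟩ := Gap.exists_low (x := x) (u := u) (v := v) fun m hm h =>
        absurd (hd hm) (by omega)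
      exact ⟨x', Finset.mem_union_left _ h1, h2⟩
    · filter_upwards [e3 {t.y \ t.e} (singleton_subset_iff.2 ⟨t, ht, rfl⟩) (finite_singleton _)]
        with a ha u v _
      exact ⟨_, Finset.mem_union_right _ ((e2 a).mem_toFinset.2 (ha rfl)), Agree.refl _ _⟩
  obtain ⟨q1, hq1, K1, N1, O1, V1, a1, a2⟩ := refine_step H
    (fun a => lowSets a ∪ (e2 a).toFinset) (fun a => hL a a) (ι := Unit) (N := fun _ => {()})
    (O := fun _ _ => Z) (fun _ _ _ => H.top.imp fun _ h => h.2.1)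
    fun r _ l hl c => ⟨r, le_rfl, c, le_rfl, (), Finset.mem_singleton_self _, hl⟩
  let b : ℕ → ℕ := fun a => max a (K1 a)
  have hb : ∀ a, a ≤ b a := fun a => le_max_left _ _
  obtain ⟨q2, hq2, K2, N2, O2, V2, b1, b2⟩ := refine_step (H.mono hq1)
    (fun a => lowSets (b a) ∪ (e2 a).toFinset) (fun a x hx => monX _ _ _ hq1 (hL _ a x hx))
    (N := N1) (O := O1) (fun a j hj => (a1 a j hj).1.imp fun _ h => h.1) a2
  obtain ⟨r2, hr2, t1, ht1, hK, -⟩ := q2.exists_ext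
    (fun m => ∑ i ∈ Finset.range (m + 1), K2 i) id (empty_subset _) finite_empty 0 (empty_subset _)
  let N : ℕ → Finset (Bool × ℕ × ℕ × ℕ) := fun a =>
    (N1 a).image (Prod.mk false) ∪ (N2 a).image (Prod.mk true)
  let V : ℕ → Bool × ℕ × ℕ × ℕ → Name PP := fun a j => if j.1 then V2 a j.2 else V1 a j.2
  have hV : ∀ a, ∀ j ∈ N a, Forces r2 fun U => InCov (f.val U) a ((V a j).val U) := by
    intro a j hj
    rcases Finset.mem_union.1 hj with h | h
    · obtain ⟨i, hi, rfl⟩ := Finset.mem_image.1 h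
      exact ((a1 a i hi).1.mono (hr2.trans hq2)).imp fun _ h => h.2.1
    · obtain ⟨i, hi, rfl⟩ := Finset.mem_image.1 h
      exact ((b1 a i hi).1.mono hr2).imp fun _ h => h.2.1
  by_cases hc : ∃ r3 ≤ r2, ∃ ys : Finset (Set ℕ), (∀ y ∈ ys, Late r3 r2 y) ∧ ∃ l0, Cov r3 l0 Z ∧
      ∃ c0, ∀ s ≤ r3, ∀ a, c0 ≤ a → ∀ j ∈ N2 a, Cov s l0 (O2 a j) → ∃ y ∈ ys, ¬ Gap y a (b a)
  · obtain ⟨r3, hr3, ys, hys, l0, hl0, c0, h0⟩ := hc
    refine ⟨r3, hr3.trans (hr2.trans (hq2.trans hq1)), N, V, fun a j hj => (hV a j hj).mono hr3,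
      fun r' hr' xs hxs l hl c => ?_⟩
    have hev : ∀ᶠ a in atTop, ∀ x ∈ xs, (∃ y ∈ ys, ¬ Gap y a (b a)) →
        ∃ x' ∈ lowSets (b a) ∪ (e2 a).toFinset, Agree (K2 a) x' x := by
      refine (eventually_all_finset xs).2 fun x hx => ?_
      rcases (hxs x hx).2 with h | h
      · exact (hold x h).mono fun a ha _ => ha _ _ (hb a)
      · filter_upwards [(eventually_all_finset ys).2 fun y hy =>
          late_gap hr3 hr' ht1 hb hK (hys y hy) h] with a ha ⟨y, hy, hg⟩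
        obtain ⟨x', h1, h2⟩ := (ha y hy hg).exists_low
        exact ⟨x', Finset.mem_union_left _ h1, h2⟩
    obtain ⟨c1, hc1⟩ := eventually_atTop.1 hev
    obtain ⟨s, hs, a, ha, j, hj, g1⟩ := b2 r' (hr'.trans (hr3.trans hr2)) (l0 ++ l)
      (fun z hz => (List.mem_append.1 hz).elim (hl0.mono hr' z) (hl z)) (c + c0 + c1)
    refine ⟨s, hs, a, by omega, (true, j), Finset.mem_union_right _
      (Finset.mem_image.2 ⟨j, hj, rfl⟩), fun x hx z hz => ?_⟩
    obtain ⟨x', h1, h2⟩ := hc1 a (by omega) x hx (h0 s (hs.trans hr') a (by omega) j hj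
      fun z hz => g1 z (List.mem_append_left _ hz))
    exact box_app (monX _ _ _ hs (hxs x hx).1) h2
      (((b1 a j hj).1.mono (hs.trans (hr'.trans (hr3.trans hr2)))).imp fun _ h => h.2.2 x' h1)
      (g1 z (List.mem_append_right _ hz))
  · push Not at hc
    refine ⟨r2, hr2.trans (hq2.trans hq1), N, V, hV, fun r' hr' xs hxs l hl c => ?_⟩
    have hev : ∀ᶠ a in atTop, ∀ x ∈ xs, ρX p x →
        ∃ x' ∈ lowSets a ∪ (e2 a).toFinset, Agree (K1 a) x' x := by
      refine (eventually_all_finset xs).2 fun x _ => ?_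
      by_cases h : ρX p x
      · exact (hold x h).mono fun a ha _ => ha _ _ le_rfl
      · exact Eventually.of_forall fun a h' => absurd h' h
    obtain ⟨c1, hc1⟩ := eventually_atTop.1 hev
    obtain ⟨s, hs, a, ha, j, hj, g1, g2⟩ := hc r' hr' (xs.filter (Late r' r2))
      (fun y hy => (Finset.mem_filter.1 hy).2) l hl (c + c1)
    obtain ⟨i, hi, g3⟩ := (b1 a j hj).2
    have hs2 : s ≤ q2 := hs.trans (hr'.trans hr2)
    refine ⟨s, hs, a, by omega, (false, i), Finset.mem_union_left _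
      (Finset.mem_image.2 ⟨i, hi, rfl⟩), fun x hx z hz => ?_⟩
    obtain ⟨x', h1, h2⟩ : ∃ x' ∈ lowSets a ∪ (e2 a).toFinset, Agree (K1 a) x' x := by
      rcases (hxs x hx).2 with h | h
      · exact hc1 a (by omega) x hx h
      · obtain ⟨x', h1, h2⟩ := (g2 x (Finset.mem_filter.2 ⟨hx, h⟩)).exists_low
        exact ⟨x', Finset.mem_union_left _ h1, h2.mono (le_max_right _ _)⟩
    exact box_app (monX _ _ _ hs (hxs x hx).1) h2
      (((a1 a i hi).1.mono (hs2.trans hq2)).imp fun _ h => h.2.2 x' h1)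
      fun U hU => g3.mono hs2 U hU _ (g1 z hz U hU)

end Pool.Agent.P.MP_d1514d_gt
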