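import Pool.Agent.P.MP_d1514d_gt.Prod
import Pool.Agent.P.MP_d1514d_gt.Om.Defs

set_option autoImplicit false
set_option synthInstance.maxSize 100000

/-! Selections from sequences of covers of the second factor. -/

open Set Filter Pool.Agent.Lib.PosetForcing

namespace Pool.Agent.P.MP_d1514d_gt

instance clopen_isOmCover (a b c : Name PP) :
    Clopen fun U : Gen PP => IsOmCover Mod.mem (CC.val U) (a.val U) (b.val U) (c.val U) := by
  unfold IsOmCover; infer_instance

instance clopen_omMenger (a b : Name PP) :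
    Clopen fun U : Gen PP => OmMenger Mod.mem (CC.val U) (a.val U) (b.val U) := by
  unfold OmMenger; infer_instance

/-- `r` puts every name of the list into `O` -/
def Cov (r : PP) (l : List (Name PP)) (O : Name PP) : Prop :=
  ∀ z ∈ l, Forces r fun U => Mod.mem (z.val U) (O.val U)

theorem Cov.mono {r r' : PP} {l : List (Name PP)} {O : Name PP} (h : Cov r l O) (hr : r' ≤ r) :
    Cov r' l O := fun z hz => (h z hz).mono hr

/-- every finite subset of `Z` lies in members of the family at infinitely many stages -/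
def Often {ι : Type} (p : PP) (Z : Name PP) (N : ℕ → Finset ι) (O : ℕ → ι → Name PP) : Prop :=
  ∀ r ≤ p, ∀ l, Cov r l Z → ∀ c, ∃ s ≤ r, ∃ a, c ≤ a ∧ ∃ j ∈ N a, Cov s l (O a j)

theorem Often.mono {ι : Type} {p q : PP} {Z : Name PP} {N : ℕ → Finset ι} {O : ℕ → ι → Name PP}
    (h : Often p Z N O) (hq : q ≤ p) : Often q Z N O := fun r hr => h r (hr.trans hq)

/-- the name of the set of entries of a list -/
noncomputable def listN (l : List (Name PP)) : Name PP := fam fun i : Fin l.length => l.get i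

theorem listN_sub {r : PP} {l : List (Name PP)} {O : Name PP} (h : Cov r l O) :
    Forces r fun U => IsSub Mod.mem ((listN l).val U) (O.val U) :=
  forces_forall_mem_fam (Φ := fun U x => Mod.mem x (O.val U)) fun i s hs =>
    ⟨s, le_rfl, (h _ (List.get_mem l i)).mono hs⟩

theorem cov_of_sub {r : PP} {l : List (Name PP)} {O : Name PP}
    (h : Forces r fun U => IsSub Mod.mem ((listN l).val U) (O.val U)) : Cov r l O := by
  intro z hz
  obtain ⟨i, rfl⟩ := List.get_of_mem hz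
  exact h.imp fun U h => h _ (mem_fam (fun i : Fin l.length => l.get i) i U)

theorem dec_choice2 {p : PP} {f g : Name PP}
    (h : Forces p fun U => IsChoice Mod.mem (CC.val U) (f.val U) (g.val U)) (n : ℕ) :
    ∃ q ≤ p, ∃ (s : Finset ℕ) (a : ℕ → Name PP),
      (∀ i ∈ s, Forces q fun U => ∀ F, App Mod.mem (f.val U) ((natName n).val U) F →
        Mod.mem ((a i).val U) F) ∧
      Forces q fun U => ∀ G V, App Mod.mem (g.val U) ((natName n).val U) G → Mod.mem V G →
        ∃ i ∈ s, V = (a i).val U := by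
  obtain ⟨G, hG⟩ := (h.imp fun U h => h.1.2.1 _ (nat_mem_w n U)).exists_name
  obtain ⟨q, hq, s, a, h1⟩ := fin_cover (C := CC)
    ((h.and hG).imp fun U h => ((isZFC U).app_val h.1.1 h.2).2)
  refine ⟨q, hq, s, a, fun i hi U hU F hF => (h.mono hq U hU).2 _ _ _ hF (hG.mono hq U hU) _
    ((h1 U hU _).2 ⟨i, hi, rfl⟩), ?_⟩
  intro U hU G' V g1 g2
  rw [(h.mono hq U hU).1.2.2 _ _ _ g1 (hG.mono hq U hU)] at g2
  exact (h1 U hU _).1 g2

theorem sel {p : PP} {Z τ : Name PP}
    (h4 : Forces p fun U => OmMenger Mod.mem (CC.val U) (Z.val U) (τ.val U)) (W : ℕ → Name PP)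
    (hW : ∀ n, Forces p fun U => IsSub Mod.mem ((W n).val U) (τ.val U))
    (hc : ∀ n, Forces p fun U => ∀ A, IsFin Mod.mem (CC.val U) A → IsSub Mod.mem A (Z.val U) →
      ∃ V, Mod.mem V ((W n).val U) ∧ IsSub Mod.mem A V) :
    ∃ r ≤ p, ∃ (N : ℕ → Finset (ℕ × ℕ)) (O : ℕ → ℕ × ℕ → Name PP),
      (∀ n, ∀ j ∈ N n, Forces r fun U => Mod.mem ((O n j).val U) ((W n).val U)) ∧
        Often r Z N O := by
  classical
  obtain ⟨q, hq, hd⟩ := hσ.exists_forall p (fun (n : ℕ) q =>
    (Forces q fun U => Mod.mem (Z.val U) ((W n).val U)) ∨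
      Forces q fun U => ¬ Mod.mem (Z.val U) ((W n).val U))
    (fun _ _ _ h h' => h'.imp (·.mono h) (·.mono h)) fun _ q _ => exists_decide _ q
  by_cases hf : ∃ᶠ n in atTop, Forces q fun U => Mod.mem (Z.val U) ((W n).val U)
  · refine ⟨q, hq, fun n => ({(0, 0)} : Finset (ℕ × ℕ)).filter fun _ =>
      Forces q fun U => Mod.mem (Z.val U) ((W n).val U), fun _ _ => Z,
      fun n j hj => (Finset.mem_filter.1 hj).2, fun r _ l hl c => ?_⟩
    obtain ⟨a, ha, h⟩ := frequently_atTop.1 hf c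
    exact ⟨r, le_rfl, a, ha, (0, 0), Finset.mem_filter.2 ⟨Finset.mem_singleton_self _, h⟩, hl⟩
  rw [not_frequently, eventually_atTop] at hf
  obtain ⟨n0, hn0⟩ := hf
  have hs : ∀ c : ℕ, Forces q fun U => IsFunOn Mod.mem
      ((seqName fun n => W (n + (c + n0))).val U) (CC.val U).w
      (IsOmCover Mod.mem (CC.val U) (Z.val U) (τ.val U)) := fun c =>
    forces_isFunOn_seq (V := fun U F => IsOmCover Mod.mem (CC.val U) (Z.val U) (τ.val U) F)
      fun n U hU => ⟨(hW _).mono hq U hU, ((hd _).resolve_left (hn0 _ (by omega))) U hU,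
        (hc _).mono hq U hU⟩
  choose g hg using fun c => (((h4.mono hq).and (hs c)).imp fun U h => h.1 _ h.2).exists_name
  obtain ⟨r, hr, g1⟩ := hσ.exists_forall q (fun (i : ℕ × ℕ) r => ∃ (s : Finset ℕ)
      (a : ℕ → Name PP), (∀ j ∈ s, Forces r fun U =>
        Mod.mem ((a j).val U) ((W (i.2 + (i.1 + n0))).val U)) ∧
      Forces r fun U => ∀ G V, App Mod.mem ((g i.1).val U) ((natName i.2).val U) G →
        Mod.mem V G → ∃ j ∈ s, V = (a j).val U)
    (fun _ _ _ h ⟨s, a, h1, h2⟩ => ⟨s, a, fun j hj => (h1 j hj).mono h, h2.mono h⟩)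
    fun i r hr => by
      obtain ⟨r1, hr1, s, a, g1, g2⟩ := dec_choice2 (((hg i.1).imp fun _ h => h.1).mono hr) i.2
      exact ⟨r1, hr1, s, a, fun j hj => (g1 j hj).imp fun U h => h _ (app_seq.2 rfl), g2⟩
  choose s a g2 g3 using g1
  refine ⟨r, hr.trans hq, fun m => (Finset.range (m + 1)).biUnion fun c =>
    ((s (c, m - (c + n0))).image (Prod.mk c)).filter fun _ => c + n0 ≤ m,
    fun m j => a (j.1, m - (j.1 + n0)) j.2, fun m j hj => ?_, fun r' hr' l hl c => ?_⟩
  · obtain ⟨c, -, hj⟩ := Finset.mem_biUnion.1 hj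
    obtain ⟨h1, h2⟩ := Finset.mem_filter.1 hj
    obtain ⟨i, hi, rfl⟩ := Finset.mem_image.1 h1
    have := g2 (c, m - (c + n0)) i hi
    rwa [Nat.sub_add_cancel h2] at this
  · have h1 : Forces r' fun U => ∃ n G V, App Mod.mem ((g c).val U) n G ∧ Mod.mem V G ∧
        IsSub Mod.mem ((listN l).val U) V := fun U hU => by
      obtain ⟨-, H, k1, k2⟩ := (hg c).mono (hr'.trans hr) U hU
      obtain ⟨V, k3, k4⟩ := k2.2.2 _ (isFin_fam _ U) (listN_sub hl U hU)
      obtain ⟨n, G, k5, k6⟩ := (k1 V).1 k3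
      exact ⟨n, G, V, k5, k6, k4⟩
    obtain ⟨n, hn⟩ := h1.exists_name
    obtain ⟨r1, hr1, m, hm⟩ := dec_nat (C := CC) (a := n)
      ((((hg c).mono (hr'.trans hr)).and hn).imp fun U ⟨k1, G, V, k2, _⟩ =>
        ((isZFC U).app_val k1.1.1 k2).1)
    have h2 : Forces r1 fun U => ∃ j ∈ s (c, m), IsSub Mod.mem ((listN l).val U)
        ((a (c, m) j).val U) := fun U hU => by
      obtain ⟨G, V, k1, k2, k3⟩ := hn.mono hr1 U hU
      rw [hm U hU] at k1
      obtain ⟨j, hj, rfl⟩ := (g3 (c, m)).mono (hr1.trans hr') U hU G V k1 k2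
      exact ⟨j, hj, k3⟩
    obtain ⟨U, hU⟩ := exists_gen r1
    obtain ⟨j, hj, k1⟩ := h2 U hU
    obtain ⟨r2, hr2, k2⟩ := exists_forces_of (Φ := fun U => IsSub Mod.mem ((listN l).val U)
      ((a (c, m) j).val U)) hU k1
    refine ⟨r2, hr2.trans hr1, m + (c + n0), by omega, (c, j), Finset.mem_biUnion.2
      ⟨c, Finset.mem_range.2 (by omega), Finset.mem_filter.2 ⟨Finset.mem_image.2 ⟨j, ?_, rfl⟩,
        by omega⟩⟩, ?_⟩
    · rwa [Nat.add_sub_cancel]
    · simp only [Nat.add_sub_cancel]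
      exact cov_of_sub k2

end Pool.Agent.P.MP_d1514d_gt
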