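import Pool.Agent.P.MP_d1514d_gt.Om.Sel

set_option autoImplicit false
set_option synthInstance.maxSize 100000

/-! One refinement step: boxes over finitely many points of the first factor. -/

open Set Filter Pool.Agent.Lib.PosetForcing

namespace Pool.Agent.P.MP_d1514d_gt

/-- the standing hypotheses on the second factor and on the sequence of covers -/
structure Hyp (p : PP) (Z τ S T f : Name PP) : Prop where
  top : Forces p fun U => IsTopOn Mod.mem (Z.val U) (τ.val U)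
  prod : Forces p fun U => IsProd Mod.mem ((setN ρX).val U) ((topN (setN ρX)).val U) (Z.val U)
    (τ.val U) (S.val U) (T.val U)
  cov : Forces p fun U => IsFunOn Mod.mem (f.val U) (CC.val U).w
    (IsOmCover Mod.mem (CC.val U) (S.val U) (T.val U))
  om : Forces p fun U => OmMenger Mod.mem (CC.val U) (Z.val U) (τ.val U)

variable {Z τ S T f : Name PP}

theorem Hyp.mono {p q : PP} (h : Hyp p Z τ S T f) (hq : q ≤ p) : Hyp q Z τ S T f :=
  ⟨h.top.mono hq, h.prod.mono hq, h.cov.mono hq, h.om.mono hq⟩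

theorem Box.mono {x : Set ℕ} {k k' : ℕ} {U : Gen PP} {O O' V : Mod U} (h : Box x k O V)
    (hk : k ≤ k') (hO : IsSub Mod.mem O' O) : Box x k' O' V :=
  fun w z hw hz => h w z (cylN_sub (Agree.refl _ _) hk U w hw) (hO z hz)

theorem exists_box {p : PP} (H : Hyp p Z τ S T f) (L : Finset (Set ℕ)) (hL : ∀ x ∈ L, ρX p x)
    (a : ℕ) {O : Name PP} (hO : Forces p fun U => Mod.mem (O.val U) (τ.val U))
    {l : List (Name PP)} (hZ : Cov p l Z) (hl : Cov p l O) :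
    ∃ r ≤ p, ∃ k, Forces r fun U => ∃ O', Mod.mem O' (τ.val U) ∧ (IsSub Mod.mem O' (O.val U) ∧
      ∃ V, InCov (f.val U) a V ∧ ∀ x ∈ L, Box x k O' V) ∧
        IsSub Mod.mem ((listN l).val U) O' := by
  classical
  let B : Name PP := fam fun i : L × Fin l.length => pairName (ptN i.1) (l.get i.2)
  have hS : ∀ i : L × Fin l.length, Forces p fun U =>
      Mod.mem ((pairName (ptN i.1) (l.get i.2)).val U) (S.val U) := fun i U hU =>
    ((H.prod U hU).1 _).2 ⟨_, _, isPair_pairName _ _ U, forces_mem_setN (hL _ i.1.2) U hU,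
      hZ _ (List.get_mem l i.2) U hU⟩
  have hB : Forces p fun U => IsSub Mod.mem (B.val U) (S.val U) :=
    forces_forall_mem_fam (Φ := fun U x => Mod.mem x (S.val U)) fun i s hs =>
      ⟨s, le_rfl, (hS i).mono hs⟩
  have h1 : Forces p fun U => ∃ V, InCov (f.val U) a V ∧ Mod.mem V (T.val U) ∧
      IsSub Mod.mem (B.val U) V := fun U hU => by
    obtain ⟨F, hF⟩ := (H.cov U hU).2.1 _ (nat_mem_w a U)
    obtain ⟨k1, -, k2⟩ := ((isZFC U).app_val (H.cov U hU) hF).2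
    obtain ⟨V, k3, k4⟩ := k2 _ (isFin_fam _ U) (hB U hU)
    exact ⟨V, ⟨F, hF, k3⟩, k1 V k3, k4⟩
  obtain ⟨V, hV⟩ := h1.exists_name
  obtain ⟨r, hr, g1⟩ := hσ.exists_forall p (fun (i : L × Fin l.length) r => ∃ k, ∃ D : Name PP,
    Forces r fun U => Mod.mem (D.val U) (τ.val U) ∧ Mod.mem ((l.get i.2).val U) (D.val U) ∧
      Box i.1 k (D.val U) (V.val U))
    (fun _ _ _ h ⟨k, D, h'⟩ => ⟨k, D, h'.mono h⟩) fun i r hr => by
      have g2 : Forces r fun U => ∃ A D, Mod.mem A ((topN (setN ρX)).val U) ∧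
          Mod.mem D (τ.val U) ∧ Mod.mem ((ptN i.1).val U) A ∧ Mod.mem ((l.get i.2).val U) D ∧
          ∀ x' y', Mod.mem x' A → Mod.mem y' D → App Mod.mem (V.val U) x' y' := fun U hU =>
        (((H.prod.mono hr U hU).2 _).1 (hV.mono hr U hU).2.1).2 _ _
          ⟨_, (hV.mono hr U hU).2.2 _ (mem_fam (fun i : L × Fin l.length =>
            pairName (ptN i.1) (l.get i.2)) i U), isPair_pairName _ _ U⟩
      obtain ⟨A, g4⟩ := g2.exists_name
      obtain ⟨D, g5⟩ := g4.exists_name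
      obtain ⟨s, hs, k, g6⟩ := exists_cyl (g5.imp fun _ h => h.1) (g5.imp fun _ h => h.2.2.1)
      exact ⟨s, hs, k, D, fun U hU => ⟨(g5.mono hs U hU).2.1, (g5.mono hs U hU).2.2.2.1,
        fun w z' g7 g8 => (g5.mono hs U hU).2.2.2.2 w z' (g6 U hU w g7) g8⟩⟩
  choose k D g2 using g1
  obtain ⟨b, hb⟩ := (finite_range k).bddAbove
  let F : Name PP := sepName τ fun U O' => IsSub Mod.mem O' (O.val U) ∧
    ∀ x ∈ L, Box x b O' (V.val U)
  have hF : ∀ U O', Mod.mem O' (F.val U) ↔ Mod.mem O' (τ.val U) ∧ IsSub Mod.mem O' (O.val U) ∧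
      ∀ x ∈ L, Box x b O' (V.val U) := fun U O' => mem_sepName _ _ U O'
  have hcov : Cov r l (unionName F) := by
    intro z hz U hU
    obtain ⟨i, rfl⟩ := List.get_of_mem hz
    obtain ⟨O', k1, k2, k3⟩ := (H.top.mono hr U hU).exists_inter
      ((hZ _ (List.get_mem l i)).mono hr U hU) (Finset.univ : Finset (Option L))
      (fun o => o.elim (O.val U) fun x => (D (x, i)).val U) (by
        rintro (_ | x) -
        · exact ⟨hO.mono hr U hU, (hl _ (List.get_mem l i)).mono hr U hU⟩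
        · exact ⟨(g2 (x, i) U hU).1, (g2 (x, i) U hU).2.1⟩)
    exact (mem_unionName _ U _).2 ⟨O', (hF U O').2 ⟨k1, k3 none (Finset.mem_univ _), fun x hx =>
      (g2 (⟨x, hx⟩, i) U hU).2.2.mono (hb ⟨_, rfl⟩) (k3 (some ⟨x, hx⟩) (Finset.mem_univ _))⟩, k2⟩
  refine ⟨r, hr, b, fun U hU => ⟨(unionName F).val U, (H.top.mono hr U hU).2.2.2 (F.val U) _
    (fun O' h => ((hF U O').1 h).1) (mem_unionName _ U), ⟨fun z hz => ?_, V.val U,
      (hV.mono hr U hU).1, fun x hx w z hw hz => ?_⟩, listN_sub hcov U hU⟩⟩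
  · obtain ⟨O', k1, k2⟩ := (mem_unionName _ U z).1 hz
    exact ((hF U O').1 k1).2.1 z k2
  · obtain ⟨O', k1, k2⟩ := (mem_unionName _ U z).1 hz
    exact ((hF U O').1 k1).2.2 x hx w z hw k2

theorem refine_step {p : PP} (H : Hyp p Z τ S T f) (L : ℕ → Finset (Set ℕ))
    (hL : ∀ a, ∀ x ∈ L a, ρX p x) {ι : Type} {N : ℕ → Finset ι} {O : ℕ → ι → Name PP}
    (hO : ∀ a, ∀ j ∈ N a, Forces p fun U => Mod.mem ((O a j).val U) (τ.val U))
    (hP : Often p Z N O) :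
    ∃ r ≤ p, ∃ (K : ℕ → ℕ) (N' : ℕ → Finset (ℕ × ℕ × ℕ)) (O' V : ℕ → ℕ × ℕ × ℕ → Name PP),
      (∀ a, ∀ j ∈ N' a, (Forces r fun U => Mod.mem ((O' a j).val U) (τ.val U) ∧
        InCov (f.val U) a ((V a j).val U) ∧
          ∀ x ∈ L a, Box x (K a) ((O' a j).val U) ((V a j).val U)) ∧
        ∃ i ∈ N a, Forces r fun U => IsSub Mod.mem ((O' a j).val U) ((O a i).val U)) ∧
      Often r Z N' O' := by
  classical
  let G : ℕ × ι × ℕ → Name PP := fun i => sepName τ fun U O' =>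
    IsSub Mod.mem O' ((O i.1 i.2.1).val U) ∧
      ∃ V, InCov (f.val U) i.1 V ∧ ∀ x ∈ L i.1, Box x i.2.2 O' V
  have hG : ∀ i U O', Mod.mem O' ((G i).val U) ↔ Mod.mem O' (τ.val U) ∧
      IsSub Mod.mem O' ((O i.1 i.2.1).val U) ∧
        ∃ V, InCov (f.val U) i.1 V ∧ ∀ x ∈ L i.1, Box x i.2.2 O' V :=
    fun i U O' => mem_sepName _ _ U O'
  let W : ℕ → Name PP := fun n =>
    unionName (fam fun i : {i : ℕ × ι × ℕ // n ≤ i.1 ∧ i.2.1 ∈ N i.1} => G i.1)
  obtain ⟨q, hq, N0, O0, h1, h2⟩ := sel H.om W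
    (fun n => Forces.of_forall (fun U O' hO' => by
      obtain ⟨y, g1, g2⟩ := (mem_unionName _ U O').1 hO'
      exact forall_mem_fam (Φ := fun U y => ∀ O, Mod.mem O y → Mod.mem O (τ.val U))
        (fun i U O h => ((hG _ U O).1 h).1) U y g1 O' g2) p)
    (fun n => forces_forall fun A => forces_imp fun r hr g1 => ⟨r, le_rfl,
      forces_imp fun r2 hr2 g2 => by
        obtain ⟨r3, hr3, s, z, g3⟩ := fin_cover (C := CC) (g1.mono hr2)
        have hl : Cov r3 (s.toList.map z) Z := by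
          intro y hy U hU
          obtain ⟨i, hi, rfl⟩ := List.mem_map.1 hy
          exact g2.mono hr3 U hU _ ((g3 U hU _).2 ⟨i, Finset.mem_toList.1 hi, rfl⟩)
        have hp3 : r3 ≤ p := hr3.trans (hr2.trans hr)
        obtain ⟨r4, hr4, a, ha, j, hj, g4⟩ := hP r3 hp3 _ hl n
        have hp4 : r4 ≤ p := hr4.trans hp3
        obtain ⟨r5, hr5, k, g5⟩ := exists_box (H.mono hp4) (L a)
          (fun x hx => monX _ _ _ hp4 (hL a x hx)) a ((hO a j hj).mono hp4) (hl.mono hr4) g4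
        refine ⟨r5, hr5.trans (hr4.trans hr3), fun U hU => ?_⟩
        obtain ⟨O', k1, k2, k3⟩ := g5 U hU
        refine ⟨O', (mem_unionName _ U O').2 ⟨_, mem_fam
          (fun i : {i : ℕ × ι × ℕ // n ≤ i.1 ∧ i.2.1 ∈ N i.1} => G i.1) ⟨(a, j, k), ha, hj⟩ U,
            (hG _ U O').2 ⟨k1, k2⟩⟩, fun x hx => k3 x ?_⟩
        obtain ⟨i, hi, rfl⟩ := (g3.mono (hr5.trans hr4) U hU x).1 hx
        exact cov_of_sub (r := r5) (O := listN (s.toList.map z))
          (Forces.of_forall (fun _ _ h => h) _) _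
          (List.mem_map.2 ⟨i, Finset.mem_toList.2 hi, rfl⟩) U hU⟩)
  obtain ⟨r, hr, h3⟩ := hσ.exists_forall q (fun (j : {j : ℕ × ℕ × ℕ // j.2 ∈ N0 j.1}) r =>
    ∃ i : ℕ × ι × ℕ, (j.1.1 ≤ i.1 ∧ i.2.1 ∈ N i.1) ∧
      Forces r fun U => Mod.mem ((O0 j.1.1 j.1.2).val U) ((G i).val U))
    (fun _ _ _ h ⟨i, h1, h2⟩ => ⟨i, h1, h2.mono h⟩) fun j r hr => by
      obtain ⟨y, hy⟩ := (((h1 _ _ j.2).mono hr).imp fun U h =>
        (mem_unionName _ U _).1 h).exists_name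
      obtain ⟨r', hr', i, hi⟩ := (hy.imp fun _ h => h.1).exists_fam
      refine ⟨r', hr', i.1, i.2, fun U hU => ?_⟩
      have k1 := (hy.mono hr' U hU).2
      rwa [hi U hU] at k1
  choose I hI hI' using h3
  let N1 : ℕ → Finset (ℕ × ℕ × ℕ) := fun a =>
    ((Finset.range (a + 1)).biUnion fun n => (N0 n).image (Prod.mk n)).filter fun j =>
      ∃ h : j.2 ∈ N0 j.1, (I ⟨j, h⟩).1 = a
  let kk : ℕ × ℕ × ℕ → ℕ := fun j => if h : j.2 ∈ N0 j.1 then (I ⟨j, h⟩).2.2 else 0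
  choose V hV using fun (a : ℕ) (j : ℕ × ℕ × ℕ) => max_principle (P := PP) fun U V =>
    InCov (f.val U) a V ∧ ∀ x ∈ L a, Box x (kk j) ((O0 j.1 j.2).val U) V
  refine ⟨r, hr.trans hq, fun a => (N1 a).sup kk, N1, fun _ j => O0 j.1 j.2, V,
    fun a j hj => ?_, fun s hs l hl c => ?_⟩
  · obtain ⟨h, rfl⟩ := (Finset.mem_filter.1 hj).2
    have e : kk j = (I ⟨j, h⟩).2.2 := dif_pos h
    refine ⟨fun U hU => ?_, _, (hI ⟨j, h⟩).2, fun U hU => ((hG _ U _).1 (hI' ⟨j, h⟩ U hU)).2.1⟩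
    obtain ⟨k1, -, k2⟩ := (hG _ U _).1 (hI' ⟨j, h⟩ U hU)
    obtain ⟨k3, k4⟩ := hV _ j U (e ▸ k2)
    exact ⟨k1, k3, fun x hx => (k4 x hx).mono (Finset.le_sup hj) fun _ h => h⟩
  · obtain ⟨s', hs', n, hn, j, hj, g1⟩ := h2 s (hs.trans hr) l hl c
    have := (hI ⟨(n, j), hj⟩).1
    exact ⟨s', hs', (I ⟨(n, j), hj⟩).1, hn.trans this, (n, j), Finset.mem_filter.2
      ⟨Finset.mem_biUnion.2 ⟨n, Finset.mem_range.2 (Nat.lt_succ_of_le this),
        Finset.mem_image.2 ⟨j, hj, rfl⟩⟩, hj, rfl⟩, g1⟩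

end Pool.Agent.P.MP_d1514d_gt
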